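import Mathlib
import Pool.Agent.H22.Witt1

namespace Pool.Agent.Results.MP_8879ae_al.NoFactor

open Polynomial TensorProduct DirectSum UniversalEnvelopingAlgebra

/-- The Lie algebra of polynomial vector fields on the line. -/
def W : Type := Derivation ℂ ℂ[X] ℂ[X]

noncomputable instance : LieRing W := Derivation.instLieRing
noncomputable instance : LieAlgebra ℂ W := Derivation.instLieAlgebra

/-- The derivation D is f(t) d/dt with f = co D, its value at the variable. -/
noncomputable def co (D : W) : ℂ[X] := DFunLike.coe (F := Derivation ℂ ℂ[X] ℂ[X]) D X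

/-- The vector field f(t) d/dt. -/
noncomputable def vf (f : ℂ[X]) : W := mkDerivation ℂ f

theorem co_vf (f : ℂ[X]) : co (vf f) = f := mkDerivation_X ℂ f
theorem co_add (D E : W) : co (D + E) = co D + co E := rfl
theorem co_smul (c : ℂ) (D : W) : co (c • D) = C c * co D := Polynomial.smul_eq_C_mul _
theorem co_lie (D E : W) : co ⁅D, E⁆ = derivative (co E) * co D - derivative (co D) * co E := by
  have h : ∀ (F : Derivation ℂ ℂ[X] ℂ[X]) (p : ℂ[X]), F p = derivative p * F X := fun F p => by
    simpa using F.map_aeval p X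
  exact congrArg₂ (· - ·) (h D _) (h E _)

/-- The span of the e_i = t^(i+1) d/dt with i at least 0. -/
def W0sub : LieSubalgebra ℂ W where
  carrier := {D | X ∣ co D}
  add_mem' ha hb := dvd_add ha hb
  zero_mem' := dvd_zero _
  smul_mem' c D h := by
    show X ∣ co (c • D)
    rw [co_smul]
    exact Dvd.dvd.mul_left h _
  lie_mem' {D E} hD hE := by
    show X ∣ co ⁅D, E⁆
    rw [co_lie]
    exact dvd_sub (Dvd.dvd.mul_left hD _) (Dvd.dvd.mul_left hE _)

def W0 : Type := W0sub

noncomputable instance : LieRing W0 := LieSubalgebra.lieRing ℂ W W0sub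
noncomputable instance : LieAlgebra ℂ W0 := LieSubalgebra.lieAlgebra ℂ W W0sub

/-- The span of the e_i with i at least n, an ideal of W0. -/
def Wge (n : ℕ) : LieIdeal ℂ W0 where
  carrier := {D | X ^ (n + 1) ∣ co D.1}
  add_mem' ha hb := dvd_add ha hb
  zero_mem' := dvd_zero _
  smul_mem' c D h := by
    show X ^ (n + 1) ∣ co (c • D.1)
    rw [co_smul]
    exact Dvd.dvd.mul_left h _
  lie_mem {D E} hE := by
    show X ^ (n + 1) ∣ co ⁅D.1, E.1⁆
    rw [co_lie]
    refine dvd_sub ?_ (Dvd.dvd.mul_left hE _)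
    rw [pow_succ]
    exact mul_dvd_mul (by simpa using pow_sub_one_dvd_derivative_of_pow_dvd hE) D.2

/-- The n-dimensional Lie algebra g_n. -/
def g (n : ℕ) : Type := W0 ⧸ Wge n

noncomputable instance (n : ℕ) : LieRing (g n) := LieSubmodule.Quotient.lieQuotientLieRing (Wge n)
noncomputable instance (n : ℕ) : LieAlgebra ℂ (g n) :=
  LieSubmodule.Quotient.lieQuotientLieAlgebra (Wge n)

/-- The vector field e_j. -/
noncomputable def e (j : ℕ) : W0 :=
  ⟨vf (X ^ (j + 1)), by
    show X ∣ co (vf (X ^ (j + 1)))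
    rw [co_vf]
    exact dvd_pow_self _ (Nat.succ_ne_zero j)⟩

/-- The class v_j of e_j in g_n. -/
noncomputable def v (n j : ℕ) : g n := LieSubmodule.Quotient.mk (N := Wge n) (e j)

/-- The direct sum of the g_(n i). -/
def gs {l : ℕ} (n : Fin l → ℕ) : Type := ⨁ i, g (n i)

noncomputable instance {l : ℕ} (n : Fin l → ℕ) : LieRing (gs n) :=
  DirectSum.lieRing (fun i => g (n i))
noncomputable instance {l : ℕ} (n : Fin l → ℕ) : LieAlgebra ℂ (gs n) :=
  DirectSum.lieAlgebra (fun i => g (n i))

/-- The element v_j of the i-th summand. -/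
noncomputable def vs {l : ℕ} (n : Fin l → ℕ) (i : Fin l) (j : ℕ) : gs n :=
  DirectSum.of (fun i => g (n i)) i (v (n i) j)

/-- The linear operators on polynomials in k variables. -/
def Op (k : ℕ) : Type := Module.End ℂ (MvPolynomial (Fin k) ℂ)

noncomputable instance (k : ℕ) : Ring (Op k) := Module.End.instRing
noncomputable instance (k : ℕ) : Algebra ℂ (Op k) := Module.End.instAlgebra ℂ ℂ _

noncomputable def tOp {k : ℕ} (i : Fin k) : Op k := LinearMap.mulLeft ℂ (MvPolynomial.X i)
noncomputable def dOp {k : ℕ} (i : Fin k) : Op k := (MvPolynomial.pderiv i).toLinearMap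

/-- The algebra generated by the multiplications by the variables and the derivatives. -/
noncomputable def Asub (k : ℕ) : Subalgebra ℂ (Op k) :=
  Algebra.adjoin ℂ (Set.range tOp ∪ Set.range dOp)

/-- The Weyl algebra A_k. -/
def A (k : ℕ) : Type := Asub k

noncomputable instance (k : ℕ) : Ring (A k) := (Asub k).toRing
noncomputable instance (k : ℕ) : Algebra ℂ (A k) := (Asub k).algebra

noncomputable def t {k : ℕ} (i : Fin k) : A k := ⟨tOp i, Algebra.subset_adjoin (Or.inl ⟨i, rfl⟩)⟩
noncomputable def d {k : ℕ} (i : Fin k) : A k := ⟨dOp i, Algebra.subset_adjoin (Or.inr ⟨i, rfl⟩)⟩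

/-- The element f(t_i) of A_k. -/
noncomputable def ev {k : ℕ} (i : Fin k) (f : ℂ[X]) : A k := aeval (t i) f

/-- The enveloping algebra of the direct sum. -/
def Ug {l : ℕ} (n : Fin l → ℕ) : Type := UniversalEnvelopingAlgebra ℂ (gs n)

noncomputable instance {l : ℕ} (n : Fin l → ℕ) : Ring (Ug n) :=
  instRingUniversalEnvelopingAlgebra ℂ (gs n)
noncomputable instance {l : ℕ} (n : Fin l → ℕ) : Algebra ℂ (Ug n) :=
  instAlgebraUniversalEnvelopingAlgebra ℂ (gs n)

noncomputable def vU {l : ℕ} (n : Fin l → ℕ) (i : Fin l) (j : ℕ) : Ug n := ι ℂ (vs n i j)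

/-- The target of Psi_n. -/
def B {l : ℕ} (n : Fin l → ℕ) : Type := A l ⊗[ℂ] Ug n

noncomputable instance {l : ℕ} (n : Fin l → ℕ) : Ring (B n) := Algebra.TensorProduct.instRing

noncomputable def tm {l : ℕ} {n : Fin l → ℕ} (a : A l) (b : Ug n) : B n := a ⊗ₜ[ℂ] b

/-- The m-th derivative of f divided by m factorial. -/
noncomputable def tay (m : ℕ) (f : ℂ[X]) : ℂ[X] := C (m.factorial : ℂ)⁻¹ * derivative^[m] f

/-- The value of the map Psi_n on the vector field D. -/
noncomputable def Psi {l : ℕ} (n : Fin l → ℕ) (D : W) : B n :=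
  ∑ i : Fin l, (tm (ev i (co D) * d i) 1 +
    ∑ j ∈ Finset.range (n i), tm (ev i (tay (j + 1) (co D))) (vU n i j))

/-- The enveloping algebra of W. -/
def UW : Type := UniversalEnvelopingAlgebra ℂ W

noncomputable instance : Ring UW := instRingUniversalEnvelopingAlgebra ℂ W
noncomputable instance : Algebra ℂ UW := instAlgebraUniversalEnvelopingAlgebra ℂ W

noncomputable def inc (D : W) : UW := ι ℂ D

open Pool.Agent.H22.Witt1

theorem mulLeft_mem (p : MvPolynomial (Fin 2) ℂ) :
    (show Op 2 from LinearMap.mulLeft ℂ p) ∈ Asub 2 := by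
  induction p using MvPolynomial.induction_on with
  | C a =>
    have : (show Op 2 from LinearMap.mulLeft ℂ (MvPolynomial.C a : R)) = algebraMap ℂ (Op 2) a := by
      refine LinearMap.ext fun q => ?_
      exact (MvPolynomial.smul_eq_C_mul q a).symm
    rw [this]
    exact Subalgebra.algebraMap_mem _ _
  | add p q hp hq =>
    have : (show Op 2 from LinearMap.mulLeft ℂ (p + q))
        = (show Op 2 from LinearMap.mulLeft ℂ p) + (show Op 2 from LinearMap.mulLeft ℂ q) := by
      refine LinearMap.ext fun r => ?_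
      exact add_mul p q r
    rw [this]
    exact add_mem hp hq
  | mul_X p i hp =>
    have : (show Op 2 from LinearMap.mulLeft ℂ (p * MvPolynomial.X i))
        = (show Op 2 from LinearMap.mulLeft ℂ p) * tOp i := by
      refine LinearMap.ext fun r => ?_
      exact mul_assoc p _ r
    rw [this]
    exact mul_mem hp (t i).2

theorem XD_mem (f : ℂ[X]) : (show Op 2 from (XD f).toLinearMap) ∈ Asub 2 := by
  have : (show Op 2 from (XD f).toLinearMap)
      = (show Op 2 from LinearMap.mulLeft ℂ (fe f)) * dOp 0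
      + (show Op 2 from LinearMap.mulLeft ℂ (2 * MvPolynomial.X 1 * fo f)) * dOp 1 := by
    refine LinearMap.ext fun r => ?_
    exact XD_apply f r
  rw [this]
  exact add_mem (mul_mem (mulLeft_mem _) (d 0).2) (mul_mem (mulLeft_mem _) (d 1).2)

attribute [local instance 100] LieRing.ofAssociativeRing

noncomputable def phiL : W →ₗ⁅ℂ⁆ A 2 where
  toFun D := ⟨(XD (co D)).toLinearMap, XD_mem _⟩
  map_add' D F := by
    apply Subtype.ext
    show (XD (co (D + F))).toLinearMap = (XD (co D)).toLinearMap + (XD (co F)).toLinearMap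
    rw [co_add, XD_add]
    rfl
  map_smul' c D := by
    apply Subtype.ext
    show (XD (co (c • D))).toLinearMap = c • (XD (co D)).toLinearMap
    rw [co_smul, ← Polynomial.smul_eq_C_mul, XD_smul]
    rfl
  map_lie' {D F} := by
    apply Subtype.ext
    show (XD (co ⁅D, F⁆)).toLinearMap = (XD (co D)).toLinearMap * (XD (co F)).toLinearMap
      - (XD (co F)).toLinearMap * (XD (co D)).toLinearMap
    rw [co_lie, ← XD_lie]
    rfl

theorem t_comm {k : ℕ} (i j : Fin k) : Commute (t i) (t j) := by
  apply Subtype.ext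
  refine LinearMap.ext fun r => ?_
  exact mul_left_comm (MvPolynomial.X i) (MvPolynomial.X j) r

theorem ev_comm {k : ℕ} (i j : Fin k) (p : ℂ[X]) : Commute (ev i p) (t j) := by
  unfold ev
  induction p using Polynomial.induction_on' with
  | add p q hp hq => rw [map_add]; exact hp.add_left hq
  | monomial n a =>
    rw [aeval_monomial]
    exact (Algebra.commute_algebraMap_left a _).mul_left ((t_comm i j).pow_left n)

noncomputable def app {k : ℕ} (a : A k) (r : MvPolynomial (Fin k) ℂ) : MvPolynomial (Fin k) ℂ :=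
  (show Module.End ℂ (MvPolynomial (Fin k) ℂ) from a.1) r

theorem app_ext {k : ℕ} {a b : A k} (h : ∀ r, app a r = app b r) : a = b :=
  Subtype.ext (LinearMap.ext h)
theorem app_add {k : ℕ} (a b : A k) (r : MvPolynomial (Fin k) ℂ) :
    app (a + b) r = app a r + app b r := rfl
theorem app_mul {k : ℕ} (a b : A k) (r : MvPolynomial (Fin k) ℂ) :
    app (a * b) r = app a (app b r) := rfl
theorem app_one {k : ℕ} (r : MvPolynomial (Fin k) ℂ) : app 1 r = r := rfl
theorem app_zero {k : ℕ} (r : MvPolynomial (Fin k) ℂ) : app 0 r = 0 := rfl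
theorem app_t {k : ℕ} (i : Fin k) (r : MvPolynomial (Fin k) ℂ) :
    app (t i) r = MvPolynomial.X i * r := rfl
theorem app_d {k : ℕ} (i : Fin k) (r : MvPolynomial (Fin k) ℂ) :
    app (d i) r = MvPolynomial.pderiv i r := rfl

theorem d_comm {k : ℕ} (i j : Fin k) : d i * t j = t j * d i + if j = i then 1 else 0 := by
  split_ifs with h
  · subst h
    refine app_ext fun r => ?_
    rw [app_add, app_mul, app_mul, app_one, app_t, app_t, app_d, app_d]
    simp [MvPolynomial.pderiv_X, add_comm]
  · refine app_ext fun r => ?_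
    rw [app_add, app_mul, app_mul, app_zero, app_t, app_t, app_d, app_d]
    simp [MvPolynomial.pderiv_X, h]

theorem tm_mul {l : ℕ} {n : Fin l → ℕ} (a c : A l) (b e : Ug n) :
    tm a b * tm c e = tm (a * c) (b * e) := Algebra.TensorProduct.tmul_mul_tmul a c b e

theorem tm_add {l : ℕ} {n : Fin l → ℕ} (a c : A l) (b : Ug n) :
    tm (a + c) b = tm a b + tm c b := TensorProduct.add_tmul a c b

theorem tm_zero {l : ℕ} {n : Fin l → ℕ} (b : Ug n) : tm (0 : A l) b = 0 :=
  TensorProduct.zero_tmul _ b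

theorem gen {S : Type} [Ring S] {l : ℕ} (n : Fin l → ℕ) (a y : Fin l → S) (c : Fin l → ℕ → S)
    (x : S) (j : Fin l) (h1 : ∀ i, a i * x = x * a i + y i) (h2 : ∀ i k, c i k * x = x * c i k)
    (h3 : ∀ i, i ≠ j → y i = 0) :
    (∑ i, (a i + ∑ k ∈ Finset.range (n i), c i k)) * x
      = x * (∑ i, (a i + ∑ k ∈ Finset.range (n i), c i k)) + y j := by
  have e : y j = ∑ i, y i := by
    rw [Finset.sum_eq_single j]
    · intro i _ hi
      exact h3 i hi
    · simp
  rw [e, Finset.sum_mul, Finset.mul_sum, ← Finset.sum_add_distrib]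
  refine Finset.sum_congr rfl fun i _ => ?_
  rw [add_mul, mul_add, Finset.sum_mul, Finset.mul_sum]
  simp only [h1, h2]
  abel

theorem Psi_comm {l : ℕ} (n : Fin l → ℕ) (D : W) (j : Fin l) :
    Psi n D * tm (t j) 1 = tm (t j) 1 * Psi n D + tm (ev j (co D)) 1 := by
  have := gen n (fun i => tm (ev i (co D) * d i) (1 : Ug n))
    (fun i => tm (if j = i then ev j (co D) else 0) 1)
    (fun i k => tm (ev i (tay (k + 1) (co D))) (vU n i k)) (tm (t j) 1) j (fun i => by
      rw [tm_mul, tm_mul, mul_one, ← tm_add]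
      congr 1
      have h := d_comm i j
      rw [mul_assoc, h, mul_add, ← mul_assoc, (ev_comm i j _).eq, mul_assoc]
      split_ifs with hij
      · subst hij
        rw [mul_one]
      · rw [mul_zero]) (fun i k => by
      rw [tm_mul, tm_mul, mul_one, one_mul, (ev_comm i j _).eq]) (fun i hi => by
      rw [if_neg hi.symm, tm_zero])
  rw [if_pos rfl] at this
  exact this

theorem result : ∃ φ : UW →ₐ[ℂ] A 2, ∀ (l : ℕ) (n : Fin l → ℕ),
    ¬ ∃ ψ : B n →+* A 2, ∀ D : W, ψ (Psi n D) = φ (inc D) := by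
  refine ⟨UniversalEnvelopingAlgebra.lift ℂ phiL, ?_⟩
  rintro l n ⟨ψ, hψ0⟩
  have hψ : ∀ D, ψ (Psi n D) = phiL D := fun D => (hψ0 D).trans (lift_ι_apply ℂ phiL D)
  have h2 : ∀ (f : ℂ[X]) (q : R), (show E from (phiL (vf f)).1) q = XD f q := fun f q => by
    show XD (co (vf f)) q = _
    rw [co_vf]
  rcases l with _ | l
  · have h := hψ (vf 1)
    have h0 : Psi n (vf 1) = 0 := by simp [Psi]
    rw [h0, map_zero] at h
    have h1 := h2 1 (MvPolynomial.X 0)
    rw [← h, XD_one] at h1
    have h3 : (0 : R) = MvPolynomial.pderiv 0 (MvPolynomial.X 0 : R) := h1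
    simp [MvPolynomial.pderiv_X] at h3
  · obtain ⟨T, hT⟩ : ∃ T, T = ψ (tm (t 0) 1) := ⟨_, rfl⟩
    have hc : ∀ f : ℂ[X], phiL (vf f) * T = T * phiL (vf f) + ψ (tm (ev 0 f) 1) := by
      intro f
      have := congrArg ψ (Psi_comm n (vf f) 0)
      rw [map_add, map_mul, map_mul, hψ, ← hT, co_vf] at this
      exact this
    have hc' : ∀ (f : ℂ[X]) (p : R), XD f ((show E from T.1) p) - (show E from T.1) (XD f p)
        = (show E from (ψ (tm (ev 0 f) 1)).1) p := by
      intro f p
      have h1 := congrArg (fun x : A 2 => (show E from x.1) p) (hc f)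
      rw [← h2, ← h2, sub_eq_iff_eq_add']
      exact h1
    obtain ⟨N, hN⟩ := nilp T.1 T.2
    refine key T.1 (fun p => ?_) (fun p => ?_) (fun p => ?_) N hN
    · refine (hc' _ _).trans ?_
      have : tm (ev 0 1) (1 : Ug n) = 1 := by
        unfold ev
        rw [map_one]
        rfl
      rw [this, map_one]
      rfl
    · refine (hc' _ _).trans ?_
      unfold ev
      rw [aeval_X, ← hT]
    · refine (hc' _ _).trans ?_
      have : tm (ev 0 (X ^ 2)) (1 : Ug n) = tm (t 0) 1 * tm (t 0) 1 := by
        unfold ev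
        rw [tm_mul, mul_one, map_pow, aeval_X, pow_two]
      rw [this, map_mul, ← hT]
      rfl

end Pool.Agent.Results.MP_8879ae_al.NoFactor
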